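import Pool.Agent.H3SP.Final

set_option autoImplicit false

namespace Pool.Agent.Results.MP_ae8ccf_nt.SparseExceptional

/-- `s` is, up to order, a solution of `a₁ ⋯ a_k = a₁ + ⋯ + a_k` in positive integers: a multiset
of `k` positive integers whose product equals its sum. -/
def IsSol (k : ℕ) (s : Multiset ℕ) : Prop :=
  Multiset.card s = k ∧ (∀ a ∈ s, 0 < a) ∧ s.prod = s.sum

/-- `k ≥ 2` is exceptional: the equation has exactly one solution up to order. -/
def Exceptional (k : ℕ) : Prop := 2 ≤ k ∧ ∃! s : Multiset ℕ, IsSol k s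

/-- The number of exceptional `k ≤ x` is at most
`x * exp(-c log x / ((log log x)^2 (log log log x)^2))` for all large `x`. -/
theorem result : ∃ c : ℝ, 0 < c ∧ ∃ x₀ : ℝ, ∀ x : ℝ, x₀ ≤ x →
    ({k : ℕ | (k : ℝ) ≤ x ∧ Exceptional k}.ncard : ℝ) ≤
      x * Real.exp (-(c * (Real.log x / ((Real.log (Real.log x)) ^ 2 *
        (Real.log (Real.log (Real.log x))) ^ 2)))) :=
  H3SP.exceptional_sparse

end Pool.Agent.Results.MP_ae8ccf_nt.SparseExceptional
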